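import Pool.Agent.TH654.Odd.Path
import Pool.Agent.H601R2.PP
import Pool.Agent.NPC.Dec

/-!
# Disjoint odd paths: membership in NP
-/

namespace Pool.Agent.TH654.Odd

open Pool.Agent.NPC

theorem pairwise_iff_zipIdx {β : Type} (l : List β) (R : β → β → Prop) :
    (∀ x ∈ l.zipIdx, ∀ y ∈ l.zipIdx, ¬ x.2 < y.2 ∨ R x.1 y.1) ↔ l.Pairwise R := by
  rw [List.pairwise_iff_getElem]
  constructor
  · intro h i j hi hj hij
    have h1 := h (l[i], i) (by
      rw [List.mem_zipIdx_iff_getElem?]; simp [hi]) (l[j], j) (by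
      rw [List.mem_zipIdx_iff_getElem?]; simp [hj])
    rcases h1 with h1 | h1
    · exact absurd hij h1
    · exact h1
  · rintro h ⟨x, i⟩ hx ⟨y, j⟩ hy
    rw [List.mem_zipIdx_iff_getElem?] at hx hy
    simp only at hx hy ⊢
    by_cases hij : i < j
    · right
      obtain ⟨hi, hi'⟩ := List.getElem?_eq_some_iff.1 hx
      obtain ⟨hj, hj'⟩ := List.getElem?_eq_some_iff.1 hy
      have := h i j hi hj hij
      rwa [hi', hj'] at this
    · exact Or.inl hij

theorem pp_pairwise {α β : Type} [TEnc α] [TEnc β] {l : α → List β} (hl : Poly l)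
    {R : β → β → Prop} (hR : PP (fun x : β × β => R x.1 x.2)) :
    PP (fun a => (l a).Pairwise R) := by
  refine PP.congr (p := fun a => ∀ x ∈ (l a).zipIdx, ∀ y ∈ (l a).zipIdx, ¬ x.2 < y.2 ∨ R x.1 y.1)
    ?_ (fun a => pairwise_iff_zipIdx _ _)
  refine PP.ball (r := fun a (x : β × ℕ) => ∀ y ∈ (l a).zipIdx, ¬ x.2 < y.2 ∨ R x.1 y.1)
    (Poly.zipIdx hl) ?_
  refine PP.ball (l := fun z : α × (β × ℕ) => (l z.1).zipIdx)
    (r := fun (z : α × (β × ℕ)) (y : β × ℕ) => ¬ z.2.2 < y.2 ∨ R z.2.1 y.1)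
    (Poly.zipIdx (hl.comp (Poly.fst Poly.id))) ?_
  refine PP.or (PP.not (PP.lt (by fun_prop) (by fun_prop))) ?_
  exact hR.comp (f := fun z : (α × (β × ℕ)) × (β × ℕ) => (z.1.2.1, z.2.1)) (by fun_prop)

theorem pp_nodup {α β : Type} [TEnc α] [TEnc β] {l : α → List β} (hl : Poly l) :
    PP (fun a => (l a).Nodup) :=
  pp_pairwise (R := fun x y => x ≠ y) hl (PP.ne (by fun_prop) (by fun_prop))

theorem isPath_iff {V : Type} {E : List (V × V)} {vs : List V} {es : List ℕ} :
    IsPath E vs es ↔ vs.Nodup ∧ vs.length = es.length + 1 ∧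
      ∀ z ∈ (vs.zip vs.tail).zip es, E[z.2]? = some z.1 ∨ E[z.2]? = some (z.1.2, z.1.1) := by
  unfold IsPath
  refine and_congr_right fun _ => and_congr_right fun hlen => ?_
  constructor
  · rintro h ⟨⟨u, v⟩, e⟩ hz
    obtain ⟨i, hi⟩ := List.mem_iff_getElem?.1 hz
    rw [List.getElem?_zip_eq_some, List.getElem?_zip_eq_some, List.getElem?_tail] at hi
    obtain ⟨e', he', h1⟩ := h i u v hi.1.1 hi.1.2
    rw [hi.2] at he'
    cases he'
    exact h1
  · intro h i u v hu hv
    have hlt : i < es.length := by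
      have := (List.getElem?_eq_some_iff.1 hv).1
      omega
    refine ⟨es[i], List.getElem?_eq_getElem hlt, ?_⟩
    refine h ((u, v), es[i]) (List.mem_iff_getElem?.2 ⟨i, ?_⟩)
    rw [List.getElem?_zip_eq_some, List.getElem?_zip_eq_some, List.getElem?_tail]
    exact ⟨⟨hu, hv⟩, List.getElem?_eq_getElem hlt⟩

theorem inner_eq {V : Type} (vs : List V) : inner vs = vs.tail.reverse.tail.reverse := by
  unfold inner
  rw [List.tail_reverse, List.reverse_reverse]

theorem poly_inner {α : Type} [TEnc α] {l : α → List ℕ} (hl : Poly l) :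
    Poly (fun a => inner (l a)) :=
  Poly.congr (f := fun a => (l a).tail.reverse.tail.reverse) (by fun_prop)
    (fun a => (inner_eq _).symm)

theorem pp_isPath {α : Type} [TEnc α] {E : α → List (ℕ × ℕ)} {vs : α → List ℕ}
    {es : α → List ℕ} (hE : Poly E) (hvs : Poly vs) (hes : Poly es) :
    PP (fun a => IsPath (E a) (vs a) (es a)) := by
  refine PP.congr ?_ (fun a => isPath_iff.symm)
  refine PP.and (pp_nodup hvs) (PP.and (PP.eq (by fun_prop) (by fun_prop)) ?_)
  refine PP.ball (r := fun a (z : (ℕ × ℕ) × ℕ) => (E a)[z.2]? = some z.1 ∨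
    (E a)[z.2]? = some (z.1.2, z.1.1)) (by fun_prop) ?_
  exact PP.or (PP.eq (by fun_prop) (by fun_prop)) (PP.eq (by fun_prop) (by fun_prop))

theorem isXYPath_iff {E : List (ℕ × ℕ)} {X Y : List ℕ} {p : List ℕ × List ℕ} :
    IsXYPath E X Y p ↔ IsPath E p.1 p.2 ∧ (∃ x ∈ X, p.1.head? = some x) ∧
      (∃ y ∈ Y, p.1.reverse.head? = some y) ∧ ∀ v ∈ inner p.1, v ∉ X ∧ v ∉ Y := by
  simp only [List.head?_reverse]
  exact ⟨fun h => ⟨h.1, h.2, h.3, h.4⟩, fun h => ⟨h.1, h.2.1, h.2.2.1, h.2.2.2⟩⟩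

theorem pp_isXYPath {α : Type} [TEnc α] {E : α → List (ℕ × ℕ)} {X Y : α → List ℕ}
    {p : α → List ℕ × List ℕ} (hE : Poly E) (hX : Poly X) (hY : Poly Y) (hp : Poly p) :
    PP (fun a => IsXYPath (E a) (X a) (Y a) (p a)) := by
  refine PP.congr ?_ (fun a => isXYPath_iff.symm)
  refine PP.and (pp_isPath hE (by fun_prop) (by fun_prop)) (PP.and ?_ (PP.and ?_ ?_))
  · exact PP.bex (r := fun a x => (p a).1.head? = some x) hX
      (PP.eq (by fun_prop) (by fun_prop))
  · exact PP.bex (r := fun a x => (p a).1.reverse.head? = some x) hY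
      (PP.eq (by fun_prop) (by fun_prop))
  · refine PP.ball (r := fun a v => v ∉ X a ∧ v ∉ Y a) (poly_inner (by fun_prop)) ?_
    exact PP.and (PP.not (PP.mem (by fun_prop) (by fun_prop)))
      (PP.not (PP.mem (by fun_prop) (by fun_prop)))

theorem pp_valid : PP Valid := by
  unfold Valid
  refine PP.and ?_ (PP.and (PP.lt (by fun_prop) (by fun_prop)) (PP.and ?_ ?_))
  · refine PP.ball (r := fun (I : Inst) (e : ℕ × ℕ) => e.1 < I.1.length ∧ e.2 < I.1.length)
      (by fun_prop) ?_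
    exact PP.and (PP.lt (by fun_prop) (by fun_prop)) (PP.lt (by fun_prop) (by fun_prop))
  · refine PP.and (pp_nodup (by fun_prop)) (PP.and (PP.eq (by fun_prop) (by fun_prop)) ?_)
    exact PP.ball (r := fun (I : Inst) (x : ℕ) => x < I.1.length) (by fun_prop)
      (PP.lt (by fun_prop) (by fun_prop))
  · refine PP.and (pp_nodup (by fun_prop)) (PP.and (PP.eq (by fun_prop) (by fun_prop)) ?_)
    exact PP.ball (r := fun (I : Inst) (x : ℕ) => x < I.1.length) (by fun_prop)
      (PP.lt (by fun_prop) (by fun_prop))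

/-- The check of a certificate. -/
def Check (z : Inst × List (List ℕ × List ℕ)) : Prop :=
  Valid z.1 ∧ z.2.length = z.1.2.2.1 ∧
    (∀ p ∈ z.2, IsXYPath z.1.2.1 z.1.2.2.2.1 z.1.2.2.2.2 p ∧ p.2.length % 2 = 1) ∧
    z.2.Pairwise (fun p q => p.2 ≠ q.2 ∧ ∀ v ∈ inner p.1, v ∉ inner q.1)

theorem pp_check : PP Check := by
  unfold Check
  refine PP.and (pp_valid.comp (Poly.fst Poly.id)) (PP.and (PP.eq (by fun_prop) (by fun_prop))
    (PP.and ?_ ?_))
  · refine PP.ball (r := fun (z : Inst × List (List ℕ × List ℕ)) (p : List ℕ × List ℕ) =>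
      IsXYPath z.1.2.1 z.1.2.2.2.1 z.1.2.2.2.2 p ∧ p.2.length % 2 = 1) (by fun_prop) ?_
    exact PP.and (pp_isXYPath (by fun_prop) (by fun_prop) (by fun_prop) (by fun_prop))
      (PP.eq (by fun_prop) (by fun_prop))
  · refine pp_pairwise (by fun_prop) ?_
    refine PP.and (PP.ne (by fun_prop) (by fun_prop)) ?_
    refine PP.ball (r := fun (z : (List ℕ × List ℕ) × (List ℕ × List ℕ)) v => v ∉ inner z.2.1)
      (poly_inner (by fun_prop)) ?_
    exact PP.not (PP.mem (by fun_prop) (poly_inner (by fun_prop)))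

theorem IsPath.exists_adj {V : Type} {E : List (V × V)} {vs : List V} {es : List ℕ}
    (h : IsPath E vs es) (hlen : 0 < es.length) {v : V} (hv : v ∈ vs) : ∃ w, Adj E v w := by
  obtain ⟨i, hi⟩ := List.mem_iff_getElem?.1 hv
  have hlt := (List.getElem?_eq_some_iff.1 hi).1
  have h2 := h.2.1
  by_cases h0 : i = 0
  · subst h0
    have h3 : 1 < vs.length := by omega
    exact ⟨_, h.adj hi (List.getElem?_eq_getElem h3)⟩
  · have h3 : i - 1 < vs.length := by omega
    have h4 : vs[i - 1 + 1]? = some v := by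
      rw [Nat.sub_add_cancel (by omega)]; exact hi
    exact ⟨_, (h.adj (List.getElem?_eq_getElem h3) h4).symm⟩

theorem IsPath.lt_of_mem_es {V : Type} {E : List (V × V)} {vs : List V} {es : List ℕ}
    (h : IsPath E vs es) {e : ℕ} (he : e ∈ es) : e < E.length := by
  obtain ⟨i, hi⟩ := List.mem_iff_getElem?.1 he
  have hlt := (List.getElem?_eq_some_iff.1 hi).1
  have h2 := h.2.1
  have g1 : i < vs.length := by omega
  have g2 : i + 1 < vs.length := by omega
  obtain ⟨e', he', h1⟩ := h.2.2 i _ _ (List.getElem?_eq_getElem g1) (List.getElem?_eq_getElem g2)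
  rw [hi] at he'
  cases he'
  rcases h1 with h1 | h1 <;> exact (List.getElem?_eq_some_iff.1 h1).1

theorem sz_list_nat_le (l : List ℕ) (S : ℕ) (h1 : l.length ≤ S) (h2 : ∀ v ∈ l, v ≤ S) :
    sz l ≤ S * (4 * S + 2) + 1 := by
  refine (sz_le_length_mul l (4 * S + 1) ?_).trans ?_
  · intro v hv
    have e1 := sz_nat_le v
    have e2 := Poly.size_le_self v
    have e3 := h2 v hv
    omega
  · exact Nat.add_le_add_right (Nat.mul_le_mul h1 (by omega)) 1

theorem inNPP_oddPaths : InNPP OddPaths := by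
  obtain ⟨R, hR, hRc⟩ := pp_check
  refine inNPP_of hR (Polynomial.X * (Polynomial.C 2 * (Polynomial.X *
    (Polynomial.C 4 * Polynomial.X + Polynomial.C 2) + 1) + Polynomial.C 2) + 1) ?_
  intro I
  constructor
  · rintro ⟨hval, P, hlen, hP, hpair⟩
    refine ⟨P, ?_, (hRc _).2 ⟨hval, hlen, fun p hp => ⟨(hP p hp).1, Nat.odd_iff.1 (hP p hp).2⟩,
      hpair⟩⟩
    simp only [Polynomial.eval_add, Polynomial.eval_mul, Polynomial.eval_X, Polynomial.eval_C,
      Polynomial.eval_one]
    have hS1 : I.1.length < sz I := (length_lt_sz I.1).trans_le (by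
      obtain ⟨a, b⟩ := I; simp only [sz_pair]; omega)
    have hS2 : I.2.1.length < sz I := (length_lt_sz I.2.1).trans_le (by
      obtain ⟨a, b, c⟩ := I; simp only [sz_pair]; omega)
    have hS3 : I.2.2.2.1.length < sz I := (length_lt_sz I.2.2.2.1).trans_le (by
      obtain ⟨a, b, c, d, e⟩ := I; simp only [sz_pair]; omega)
    have hPlen : P.length ≤ sz I := by
      have := hval.2.2.1.2.1
      omega
    refine (sz_le_length_mul P (2 * (sz I * (4 * sz I + 2) + 1) + 1) ?_).trans ?_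
    · intro p hp
      have hpath := (hP p hp).1.isPath
      have hpos := (hP p hp).2.pos
      have hvlt : ∀ v ∈ p.1, v < I.1.length := by
        intro v hv
        obtain ⟨w, hw | hw⟩ := hpath.exists_adj hpos hv
        · exact (hval.1 _ hw).1
        · exact (hval.1 _ hw).2
      have hl1 : p.1.length ≤ I.1.length := by
        have h1 := hpath.1.subperm (l₂ := List.range I.1.length)
          (fun v hv => List.mem_range.2 (hvlt v hv))
        simpa using h1.length_le
      have hl2 := hpath.2.1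
      have e1 := sz_list_nat_le p.1 (sz I) (by omega) (fun v hv => by
        have := hvlt v hv; omega)
      have e2 := sz_list_nat_le p.2 (sz I) (by omega) (fun v hv => by
        have := hpath.lt_of_mem_es hv; omega)
      obtain ⟨p1, p2⟩ := p
      simp only [sz_pair] at e1 e2 ⊢
      omega
    · exact Nat.add_le_add_right (Nat.mul_le_mul hPlen le_rfl) 1
  · rintro ⟨P, -, hPc⟩
    obtain ⟨hval, hlen, hP, hpair⟩ := (hRc _).1 hPc
    exact ⟨hval, P, hlen, fun p hp => ⟨(hP p hp).1, Nat.odd_iff.2 (hP p hp).2⟩, hpair⟩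

end Pool.Agent.TH654.Odd
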