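import Pool.Agent.TH654.Odd.Graph

/-!
# Disjoint odd paths: paths give a satisfying assignment
-/

namespace Pool.Agent.TH654.Odd

open Vx

variable {m N : ℕ} {cl : ℕ → List (Bool × ℕ)}

theorem mem_XX {v : Vx} : v ∈ XX m ↔ v = u 0 ∨ ∃ j < m, v = x j := by
  unfold XX
  simp only [List.mem_cons, List.mem_map, List.mem_range]
  constructor
  · rintro (h | ⟨j, hj, rfl⟩)
    · exact Or.inl h
    · exact Or.inr ⟨j, hj, rfl⟩
  · rintro (h | ⟨j, hj, rfl⟩)
    · exact Or.inl h
    · exact Or.inr ⟨j, hj, rfl⟩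

theorem mem_YY {v : Vx} : v ∈ YY m ↔ v = t ∨ ∃ j < m, v = y j := by
  unfold YY
  simp only [List.mem_cons, List.mem_map, List.mem_range]
  constructor
  · rintro (h | ⟨j, hj, rfl⟩)
    · exact Or.inl h
    · exact Or.inr ⟨j, hj, rfl⟩
  · rintro (h | ⟨j, hj, rfl⟩)
    · exact Or.inl h
    · exact Or.inr ⟨j, hj, rfl⟩

/-- the vertices at position `0` of an `(X, Y)`-path -/
theorem IsXYPath.first' {E : List (Vx × Vx)} {X Y : List Vx} {p : List Vx × List ℕ}
    (h : IsXYPath E X Y p) {v : Vx} (hv : p.1[0]? = some v) : v ∈ X := by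
  obtain ⟨a, ha, ha'⟩ := h.first
  rw [List.head?_eq_getElem?, hv] at ha'
  cases ha'
  exact ha

/-- The ends of the odd paths. -/
theorem path_end (hN : 0 < N) {p : List Vx × List ℕ}
    (h : IsXYPath (edges m N cl) (XX m) (YY m) p) (hodd : Odd p.2.length) :
    (p.1.getLast? = some t ∧ u N ∈ inner p.1) ∨
    ∃ j < m, p.1.getLast? = some (y j) ∧ q j ∈ inner p.1 ∧
      ∃ l ∈ cl j, c l.2 l.1 (2 * j + 1) ∈ inner p.1 := by
  obtain ⟨w, v, hw, hv, hvY, hadj, h2⟩ := h.getLast_adj hodd
  have hlast : p.1.getLast? = some v := by rw [List.getLast?_eq_getElem?]; exact hv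
  rw [mem_YY] at hvY
  rcases hvY with rfl | ⟨j, hj, rfl⟩
  · left
    have hwu := adj_t hadj
    subst hwu
    refine ⟨hlast, ?_⟩
    refine mem_inner_of_getElem? hw ?_ (by omega)
    by_contra h0
    have h1 : p.1.length - 2 = 0 := by omega
    rw [h1] at hw
    have := h.first' hw
    rw [mem_XX] at this
    simp only [Vx.u.injEq, reduceCtorEq, and_false, exists_false, or_false] at this
    omega
  · right
    have hwq := adj_y hadj
    subst hwq
    have hpos : 0 < p.1.length - 2 := by
      by_contra h0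
      have h1 : p.1.length - 2 = 0 := by omega
      rw [h1] at hw
      have := h.first' hw
      rw [mem_XX] at this
      simp at this
    refine ⟨j, hj, hlast, mem_inner_of_getElem? hw hpos (by omega), ?_⟩
    have hlt : p.1.length - 3 < p.1.length := by omega
    have h3 : p.1[p.1.length - 3]? = some p.1[p.1.length - 3] := List.getElem?_eq_getElem hlt
    have e1 : p.1.length - 3 + 1 = p.1.length - 2 := by omega
    have h4 : Adj (edges m N cl) p.1[p.1.length - 3] (q j) := h.isPath.adj h3 (by rw [e1]; exact hw)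
    rcases adj_q h4 with h5 | ⟨l, hl, h5⟩
    · exfalso
      rw [h5] at h3
      have := (List.getElem?_inj hlt h.isPath.1).1 (h3.trans hv.symm)
      omega
    · refine ⟨l, hl, ?_⟩
      rw [h5] at h3
      refine mem_inner_of_getElem? h3 ?_ (by omega)
      by_contra h0
      have h1 : p.1.length - 3 = 0 := by omega
      rw [h1] at h3
      have := h.first' h3
      rw [mem_XX] at this
      simp at this

/-- The left side of the cut. -/
def left (i h0 h1 : ℕ) : Vx → Prop
  | u i' => i' ≤ i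
  | c i' b h => i' < i ∨ (i' = i ∧ h < bif b then h1 else h0)
  | _ => False

/-- No edge between allowed vertices crosses the cut. -/
theorem left_edge {i h0 h1 : ℕ} (hi : i < N) (hh0 : h0 ≤ 2 * m) (hh1 : h1 ≤ 2 * m)
    {e : Vx × Vx} (he : e ∈ edges m N cl) (hx : ∀ j, e.1 ≠ x j) (hq1 : ∀ j, e.1 ≠ q j)
    (hq2 : ∀ j, e.2 ≠ q j)
    (hc0 : e.1 ≠ c i false h0 ∧ e.2 ≠ c i false h0)
    (hc1 : e.1 ≠ c i true h1 ∧ e.2 ≠ c i true h1) :
    left i h0 h1 e.1 ↔ left i h0 h1 e.2 := by
  rw [mem_edges] at he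
  rcases he with rfl | ⟨i', hi', b, rfl | rfl | ⟨h, hh, rfl⟩⟩ | ⟨j, hj, rfl | ⟨l, hl, rfl | rfl⟩⟩
  · simp only [left, iff_false]
    omega
  · simp only [left]
    simp only [ne_eq, reduceCtorEq, not_false_eq_true, Vx.c.injEq, true_and, not_and] at hc0 hc1
    cases b <;> simp only [cond_true, cond_false]
    · have : i' = i → 0 ≠ h0 := fun h => hc0 h rfl
      omega
    · have : i' = i → 0 ≠ h1 := fun h => hc1 h rfl
      omega
  · simp only [left]
    cases b <;> simp only [cond_true, cond_false] <;> omega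
  · simp only [left]
    simp only [ne_eq, Vx.c.injEq, not_and] at hc0 hc1
    cases b <;> simp only [cond_true, cond_false]
    · have h1 : i' = i → h + 1 ≠ h0 := fun h => hc0.2 h rfl
      omega
    · have h2 : i' = i → h + 1 ≠ h1 := fun h => hc1.2 h rfl
      omega
  · exact absurd rfl (hq1 j)
  · exact absurd rfl (hx j)
  · exact absurd rfl (hq2 j)

/-- A path from `u 0` to `t` which avoids the vertices `q j` and `x j` contains one of the sides
for each variable. -/
theorem side_used {vs : List Vx} {es : List ℕ} (hp : IsPath (edges m N cl) vs es)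
    (h0 : vs[0]? = some (u 0)) (ht : vs.getLast? = some t)
    (hx : ∀ j, x j ∉ vs) (hq : ∀ j, q j ∉ vs) {i : ℕ} (hi : i < N) :
    (∀ h ≤ 2 * m, c i false h ∈ vs) ∨ (∀ h ≤ 2 * m, c i true h ∈ vs) := by
  by_contra hcon
  push Not at hcon
  obtain ⟨⟨a, ha, ha'⟩, ⟨b, hb, hb'⟩⟩ := hcon
  have key : ∀ (k : ℕ) (v : Vx), vs[k]? = some v → left i a b v := by
    intro k
    induction k with
    | zero =>
      intro v hv
      rw [h0] at hv
      cases hv
      simp [left]
    | succ k ih =>
      intro v hv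
      have hlt : k < vs.length := by
        have := (List.getElem?_eq_some_iff.1 hv).1
        omega
      have h1 : vs[k]? = some vs[k] := List.getElem?_eq_getElem hlt
      have h2 := ih _ h1
      have m1 : vs[k] ∈ vs := List.getElem_mem hlt
      have m2 : v ∈ vs := List.mem_of_getElem? hv
      have nx : ∀ {w : Vx}, w ∈ vs → (∀ j, w ≠ x j) ∧ (∀ j, w ≠ q j) ∧ w ≠ c i false a ∧
          w ≠ c i true b := by
        intro w hw
        refine ⟨fun j e => hx j (e ▸ hw), fun j e => hq j (e ▸ hw), fun e => ha' (e ▸ hw),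
          fun e => hb' (e ▸ hw)⟩
      obtain ⟨n1, n2, n3, n4⟩ := nx m1
      obtain ⟨k1, k2, k3, k4⟩ := nx m2
      rcases hp.adj h1 hv with h3 | h3
      · exact (left_edge hi ha hb h3 n1 n2 k2 ⟨n3, k3⟩ ⟨n4, k4⟩).1 h2
      · exact (left_edge hi ha hb h3 k1 k2 n2 ⟨k3, n3⟩ ⟨k4, n4⟩).2 h2
  rw [List.getLast?_eq_getElem?] at ht
  have := key _ _ ht
  simp [left] at this

/-- Odd paths give a satisfying assignment. -/
theorem sat_of_paths (hN : 0 < N) (hcl : ∀ j < m, ∀ l ∈ cl j, l.2 < N)
    (h : HasOddPaths (edges m N cl) (m + 1) (XX m) (YY m)) :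
    ∃ τ : ℕ → Bool, ∀ j < m, ∃ l ∈ cl j, τ l.2 = l.1 := by
  classical
  obtain ⟨P, hlen, hP, hpair⟩ := h
  have hsym : Std.Symm (fun p q : List Vx × List ℕ =>
      p.2 ≠ q.2 ∧ (inner p.1).Disjoint (inner q.1)) :=
    ⟨fun p q h => ⟨h.1.symm, h.2.symm⟩⟩
  have hdis : ∀ p ∈ P, ∀ q ∈ P, p ≠ q → (inner p.1).Disjoint (inner q.1) :=
    fun p hp q hq hpq => (hpair.forall hp hq hpq).2
  have hPnd : P.Nodup := hpair.imp (fun {p q} h e => h.1 (congrArg Prod.snd e))
  have hendP := fun p hp => path_end (m := m) (cl := cl) hN (hP p hp).1 (hP p hp).2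
  -- the last vertices
  have hinj : ∀ p ∈ P, ∀ q ∈ P, p.1.getLast? = q.1.getLast? → p = q := by
    intro p hp q hq hpq
    by_contra hne
    have hd := hdis p hp q hq hne
    rcases hendP p hp with ⟨h1, h2⟩ | ⟨j, hj, h1, h2, -⟩
    · rcases hendP q hq with ⟨h3, h4⟩ | ⟨j', hj', h3, h4, -⟩
      · exact hd h2 h4
      · rw [h1, h3] at hpq; simp at hpq
    · rcases hendP q hq with ⟨h3, h4⟩ | ⟨j', hj', h3, h4, -⟩
      · rw [h1, h3] at hpq; simp at hpq
      · rw [h1, h3] at hpq
        simp only [Option.some.injEq, Vx.y.injEq] at hpq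
        subst hpq
        exact hd h2 h4
  have hmapnd : (P.map (fun p => p.1.getLast?)).Nodup :=
    List.Nodup.map_on (fun p hp q hq h => hinj p hp q hq h) hPnd
  have hsub : P.map (fun p => p.1.getLast?) ⊆ (YY m).map some := by
    intro o ho
    obtain ⟨p, hp, rfl⟩ := List.mem_map.1 ho
    rcases hendP p hp with ⟨h1, -⟩ | ⟨j, hj, h1, -⟩
    · exact List.mem_map.2 ⟨t, mem_YY.2 (Or.inl rfl), h1.symm⟩
    · exact List.mem_map.2 ⟨y j, mem_YY.2 (Or.inr ⟨j, hj, rfl⟩), h1.symm⟩
  have hperm : (P.map (fun p => p.1.getLast?)).Perm ((YY m).map some) := by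
    refine (hmapnd.subperm hsub).perm_of_length_le ?_
    simp [YY, hlen]
  have hget : ∀ v ∈ YY m, ∃ p ∈ P, p.1.getLast? = some v := by
    intro v hv
    have := hperm.mem_iff.2 (List.mem_map.2 ⟨v, hv, rfl⟩)
    obtain ⟨p, hp, h⟩ := List.mem_map.1 this
    exact ⟨p, hp, h⟩
  obtain ⟨p, hp, hpt⟩ := hget t (mem_YY.2 (Or.inl rfl))
  have hpath := (hP p hp).1
  -- the first vertex of `p` is `u 0`
  have hpos : 0 < p.1.length := by
    have := hpath.isPath.2.1
    omega
  have hz : p.1[0]? = some p.1[0] := List.getElem?_eq_getElem hpos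
  have hp0 : p.1[0]? = some (u 0) := by
    have h1 := hpath.first' hz
    rw [mem_XX] at h1
    rcases h1 with h1 | ⟨j, hj, h1⟩
    · rw [hz, h1]
    · exfalso
      have hc := hpath.isPath.color (c := col) col_edges hz (p.1.length - 1) t
        (by rw [← List.getLast?_eq_getElem?]; exact hpt)
      rw [h1] at hc
      have h2 := hpath.isPath.2.1
      obtain ⟨r, hr⟩ := (hP p hp).2
      have h3 : (p.1.length - 1) % 2 = 1 := by omega
      simp [col, h3] at hc
  -- positions
  have hends : ∀ v ∈ p.1, v = u 0 ∨ v = t ∨ v ∈ inner p.1 := by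
    intro v hv
    obtain ⟨k, hk⟩ := List.mem_iff_getElem?.1 hv
    have hklt := (List.getElem?_eq_some_iff.1 hk).1
    by_cases h0 : k = 0
    · subst h0
      rw [hp0] at hk
      cases hk
      exact Or.inl rfl
    · by_cases h1 : k + 1 < p.1.length
      · exact Or.inr (Or.inr (mem_inner_of_getElem? hk (by omega) h1))
      · right; left
        rw [List.getLast?_eq_getElem?] at hpt
        have : k = p.1.length - 1 := by omega
        rw [this, hpt] at hk
        cases hk
        rfl
  have hq : ∀ j, q j ∉ p.1 := by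
    intro j hj
    rcases hends _ hj with h1 | h1 | h1
    · simp at h1
    · simp at h1
    · by_cases hjm : j < m
      · obtain ⟨p', hp', hpy⟩ := hget (y j) (mem_YY.2 (Or.inr ⟨j, hjm, rfl⟩))
        have hne : p ≠ p' := by
          rintro rfl
          rw [hpt] at hpy
          simp at hpy
        rcases hendP p' hp' with ⟨h3, -⟩ | ⟨j', hj', h3, h4, -⟩
        · rw [hpy] at h3; simp at h3
        · rw [hpy] at h3
          simp only [Option.some.injEq, Vx.y.injEq] at h3
          subst h3
          exact hdis p hp p' hp' hne h1 h4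
      · -- `q j` is no vertex of the graph
        obtain ⟨k, hk0, hk1, hk⟩ := exists_getElem?_of_mem_inner h1
        have hlt : k + 1 < p.1.length := hk1
        have h2 : p.1[k + 1]? = some p.1[k + 1] := List.getElem?_eq_getElem hlt
        have h3 := hpath.isPath.adj hk h2
        rcases h3 with h3 | h3 <;> rw [mem_edges] at h3 <;>
          rcases h3 with h3 | ⟨i, hi, b, h3 | h3 | ⟨k', hk', h3⟩⟩ |
            ⟨j', hj', h3 | ⟨l, hl, h3 | h3⟩⟩ <;>
          simp only [Prod.mk.injEq, reduceCtorEq, and_false, false_and, Vx.q.injEq] at h3 <;>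
          omega
  have hx : ∀ j, x j ∉ p.1 := by
    intro j hj
    rcases hends _ hj with h1 | h1 | h1
    · simp at h1
    · simp at h1
    · by_cases hjm : j < m
      · exact (hpath.internal _ h1).1 (mem_XX.2 (Or.inr ⟨j, hjm, rfl⟩))
      · obtain ⟨k, hk0, hk1, hk⟩ := exists_getElem?_of_mem_inner h1
        have hlt : k + 1 < p.1.length := hk1
        have h2 : p.1[k + 1]? = some p.1[k + 1] := List.getElem?_eq_getElem hlt
        have h3 := hpath.isPath.adj hk h2
        rcases h3 with h3 | h3 <;> rw [mem_edges] at h3 <;>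
          rcases h3 with h3 | ⟨i, hi, b, h3 | h3 | ⟨k', hk', h3⟩⟩ |
            ⟨j', hj', h3 | ⟨l, hl, h3 | h3⟩⟩ <;>
          simp only [Prod.mk.injEq, reduceCtorEq, and_false, false_and, Vx.x.injEq] at h3 <;>
          omega
  have hside := fun i hi => side_used (i := i) hpath.isPath hp0 hpt hx hq hi
  refine ⟨fun i => decide (∀ h ≤ 2 * m, c i false h ∈ p.1), fun j hj => ?_⟩
  obtain ⟨p', hp', hpy⟩ := hget (y j) (mem_YY.2 (Or.inr ⟨j, hj, rfl⟩))
  have hne : p ≠ p' := by
    rintro rfl
    rw [hpt] at hpy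
    simp at hpy
  rcases hendP p' hp' with ⟨h3, -⟩ | ⟨j', hj', h3, -, ⟨i, b⟩, hl, hin⟩
  · rw [hpy] at h3; simp at h3
  · rw [hpy] at h3
    simp only [Option.some.injEq, Vx.y.injEq] at h3
    subst h3
    refine ⟨_, hl, ?_⟩
    have hnot : c b i (2 * j + 1) ∉ p.1 := by
      intro hmem
      rcases hends _ hmem with h1 | h1 | h1
      · simp at h1
      · simp at h1
      · exact hdis p hp p' hp' hne h1 hin
    have hb := hcl j hj _ hl
    rcases hside b hb with h1 | h1
    · cases i with
      | false => exact absurd (h1 (2 * j + 1) (by omega)) hnot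
      | true => simpa using h1
    · cases i with
      | false =>
        simp only [decide_eq_false_iff_not]
        intro h2
        exact hnot (h2 (2 * j + 1) (by omega))
      | true => exact absurd (h1 (2 * j + 1) (by omega)) hnot

end Pool.Agent.TH654.Odd
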