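import Mathlib

/-!
# Disjoint odd paths: the problem
-/

namespace Pool.Agent.TH654.Odd

/-- The list `E` describes an undirected multigraph: the edge number `i` joins the two vertices
`(E i).1` and `(E i).2`.  The pair `(vs, es)` is a path in this multigraph: the entries of `vs` are
different vertices, and the edges with the numbers in `es` join the consecutive vertices. -/
def IsPath {V : Type} (E : List (V × V)) (vs : List V) (es : List ℕ) : Prop :=
  vs.Nodup ∧ vs.length = es.length + 1 ∧
    ∀ i u v, vs[i]? = some u → vs[i + 1]? = some v →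
      ∃ e, es[i]? = some e ∧ (E[e]? = some (u, v) ∨ E[e]? = some (v, u))

/-- The internal vertices of a path, given by the list of its vertices. -/
def inner {V : Type} (vs : List V) : List V := vs.tail.dropLast

/-- `p = (vs, es)` is an `(X, Y)`-path: its first vertex is in `X`, its last vertex is in `Y`, and
no internal vertex is in `X` or `Y`. -/
structure IsXYPath {V : Type} (E : List (V × V)) (X Y : List V) (p : List V × List ℕ) : Prop where
  isPath : IsPath E p.1 p.2
  first : ∃ x ∈ X, p.1.head? = some x
  last : ∃ y ∈ Y, p.1.getLast? = some y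
  internal : ∀ v ∈ inner p.1, v ∉ X ∧ v ∉ Y

/-- There are `k` different and pairwise internally disjoint `(X, Y)`-paths of odd length.
(Different paths have different lists of edges.) -/
def HasOddPaths {V : Type} (E : List (V × V)) (k : ℕ) (X Y : List V) : Prop :=
  ∃ P : List (List V × List ℕ), P.length = k ∧
    (∀ p ∈ P, IsXYPath E X Y p ∧ Odd p.2.length) ∧
    P.Pairwise (fun p q => p.2 ≠ q.2 ∧ (inner p.1).Disjoint (inner q.1))

/-- Instances `(n, E, k, X, Y)`: the number `n` of vertices (in unary), the list of the edges, a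
number, and two lists of vertices. -/
abbrev Inst : Type := List Unit × List (ℕ × ℕ) × ℕ × List ℕ × List ℕ

/-- `(n, E, k, X, Y)` is a well-formed instance: the edges join vertices in `{0, ..., n-1}`, `k` is
positive, and `X` and `Y` are lists of `k` different vertices. -/
def Valid (I : Inst) : Prop :=
  (∀ e ∈ I.2.1, e.1 < I.1.length ∧ e.2 < I.1.length) ∧ 0 < I.2.2.1 ∧
    (I.2.2.2.1.Nodup ∧ I.2.2.2.1.length = I.2.2.1 ∧ ∀ x ∈ I.2.2.2.1, x < I.1.length) ∧
    (I.2.2.2.2.Nodup ∧ I.2.2.2.2.length = I.2.2.1 ∧ ∀ y ∈ I.2.2.2.2, y < I.1.length)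

/-- The problem ODD-PATHS: given a multigraph, a number `k ≥ 1` and two sets `X`, `Y` of `k`
vertices, are there `k` pairwise internally disjoint `(X, Y)`-paths of odd length? -/
def OddPaths (I : Inst) : Prop := Valid I ∧ HasOddPaths I.2.1 I.2.2.1 I.2.2.2.1 I.2.2.2.2

end Pool.Agent.TH654.Odd
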