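import Pool.Agent.TH654.Odd.Back

/-!
# Disjoint odd paths: a satisfying assignment gives paths
-/

namespace Pool.Agent.TH654.Odd

open Vx

variable {m N : ℕ} {cl : ℕ → List (Bool × ℕ)}

/-- the part of the long path for the variable `i` -/
def seg (m : ℕ) (τ : ℕ → Bool) (i : ℕ) : List Vx :=
  (List.range (2 * m + 1)).map (c i (!τ i)) ++ [u (i + 1)]

/-- an initial part of the long path -/
def pre (m : ℕ) (τ : ℕ → Bool) : ℕ → List Vx
  | 0 => [u 0]
  | n + 1 => pre m τ n ++ seg m τ n

theorem mem_seg {τ : ℕ → Bool} {i : ℕ} {v : Vx} :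
    v ∈ seg m τ i ↔ (∃ h < 2 * m + 1, v = c i (!τ i) h) ∨ v = u (i + 1) := by
  unfold seg
  simp only [List.mem_append, List.mem_map, List.mem_range, List.mem_singleton]
  constructor
  · rintro (⟨h, h1, rfl⟩ | h)
    · exact Or.inl ⟨h, h1, rfl⟩
    · exact Or.inr h
  · rintro (⟨h, h1, rfl⟩ | h)
    · exact Or.inl ⟨h, h1, rfl⟩
    · exact Or.inr h

theorem mem_pre {τ : ℕ → Bool} {n : ℕ} {v : Vx} : v ∈ pre m τ n ↔
    (∃ i ≤ n, v = u i) ∨ ∃ i < n, ∃ h < 2 * m + 1, v = c i (!τ i) h := by
  induction n with
  | zero => simp [pre]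
  | succ n ih =>
    rw [pre, List.mem_append, ih, mem_seg]
    constructor
    · rintro ((⟨i, hi, h⟩ | ⟨i, hi, h, h1, h2⟩) | ⟨h, h1, h2⟩ | h)
      · exact Or.inl ⟨i, by omega, h⟩
      · exact Or.inr ⟨i, by omega, h, h1, h2⟩
      · exact Or.inr ⟨n, by omega, h, h1, h2⟩
      · exact Or.inl ⟨n + 1, le_rfl, h⟩
    · rintro (⟨i, hi, h⟩ | ⟨i, hi, h, h1, h2⟩)
      · by_cases h3 : i ≤ n
        · exact Or.inl (Or.inl ⟨i, h3, h⟩)
        · have : i = n + 1 := by omega
          subst this
          exact Or.inr (Or.inr h)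
      · by_cases h3 : i < n
        · exact Or.inl (Or.inr ⟨i, h3, h, h1, h2⟩)
        · have : i = n := by omega
          subst this
          exact Or.inr (Or.inl ⟨h, h1, h2⟩)

theorem nodup_seg {τ : ℕ → Bool} {i : ℕ} : (seg m τ i).Nodup := by
  unfold seg
  rw [List.nodup_append]
  refine ⟨List.Nodup.map (fun a b h => by simpa using h) List.nodup_range, by simp, ?_⟩
  intro a ha b hb
  rw [List.mem_singleton] at hb
  subst hb
  obtain ⟨h, -, rfl⟩ := List.mem_map.1 ha
  simp

theorem nodup_pre {τ : ℕ → Bool} {n : ℕ} : (pre m τ n).Nodup := by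
  induction n with
  | zero => simp [pre]
  | succ n ih =>
    rw [pre, List.nodup_append]
    refine ⟨ih, nodup_seg, ?_⟩
    rintro a ha b hb rfl
    rw [mem_pre] at ha
    rw [mem_seg] at hb
    rcases ha with ⟨i, hi, rfl⟩ | ⟨i, hi, h, h1, rfl⟩
    · rcases hb with ⟨h, -, h2⟩ | h2
      · simp at h2
      · simp only [Vx.u.injEq] at h2
        omega
    · rcases hb with ⟨h', -, h2⟩ | h2
      · simp only [Vx.c.injEq] at h2
        omega
      · simp at h2

theorem length_pre {τ : ℕ → Bool} {n : ℕ} : (pre m τ n).length = n * (2 * m + 2) + 1 := by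
  induction n with
  | zero => simp [pre]
  | succ n ih =>
    rw [pre, List.length_append, ih]
    simp only [seg, List.length_append, List.length_map, List.length_range, List.length_singleton]
    ring

theorem getLast?_pre {τ : ℕ → Bool} {n : ℕ} : (pre m τ n).getLast? = some (u n) := by
  cases n with
  | zero => rfl
  | succ n => rw [pre, seg, ← List.append_assoc, List.getLast?_concat]

theorem head?_pre {τ : ℕ → Bool} {n : ℕ} : (pre m τ n).head? = some (u 0) := by
  induction n with
  | zero => rfl
  | succ n ih => rw [pre, List.head?_append, ih]; rfl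

theorem isChain_seg {τ : ℕ → Bool} {i : ℕ} (hi : i < N) :
    (seg m τ i).IsChain (Adj (edges m N cl)) := by
  unfold seg
  rw [List.isChain_append]
  refine ⟨?_, List.isChain_singleton _, ?_⟩
  · rw [List.isChain_iff_getElem]
    intro k hk
    simp only [List.length_map, List.length_range] at hk
    simp only [List.getElem_map, List.getElem_range]
    exact Or.inl (mem_edges.2 (Or.inr (Or.inl ⟨i, hi, _, Or.inr (Or.inr ⟨k, by omega, rfl⟩)⟩)))
  · intro a ha b hb
    have e : ((List.range (2 * m + 1)).map (c i (!τ i))).getLast? = some (c i (!τ i) (2 * m)) := by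
      rw [List.range_succ, List.map_append, List.map_singleton, List.getLast?_concat]
    rw [e] at ha
    simp only [Option.mem_def, Option.some.injEq, List.head?_cons] at ha hb
    subst ha hb
    exact Or.inl (mem_edges.2 (Or.inr (Or.inl ⟨i, hi, _, Or.inr (Or.inl rfl)⟩)))

theorem isChain_pre {τ : ℕ → Bool} {n : ℕ} (hn : n ≤ N) :
    (pre m τ n).IsChain (Adj (edges m N cl)) := by
  induction n with
  | zero => exact List.isChain_singleton _
  | succ n ih =>
    rw [pre, List.isChain_append]
    refine ⟨ih (by omega), isChain_seg (by omega), ?_⟩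
    intro a ha b hb
    rw [getLast?_pre] at ha
    have e : (seg m τ n).head? = some (c n (!τ n) 0) := by
      rw [seg, List.range_succ_eq_map]
      rfl
    rw [e] at hb
    simp only [Option.mem_def, Option.some.injEq] at ha hb
    subst ha hb
    exact Or.inl (mem_edges.2 (Or.inr (Or.inl ⟨n, by omega, _, Or.inl rfl⟩)))

/-- the long path -/
def long (m N : ℕ) (τ : ℕ → Bool) : List Vx := pre m τ N ++ [t]

theorem inner_long {τ : ℕ → Bool} : ∀ v ∈ inner (long m N τ),
    (∃ i, 0 < i ∧ v = u i) ∨ ∃ i h, v = c i (!τ i) h := by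
  intro v hv
  have h1 : inner (long m N τ) = (pre m τ N).tail := by
    unfold inner long
    have hne : pre m τ N ≠ [] := by
      intro h
      have := length_pre (m := m) (τ := τ) (n := N)
      rw [h] at this
      simp at this
    rw [List.tail_append_of_ne_nil hne, List.dropLast_concat]
  rw [h1] at hv
  have hnd := nodup_pre (m := m) (τ := τ) (n := N)
  have hh := head?_pre (m := m) (τ := τ) (n := N)
  have hmem : v ∈ pre m τ N := List.mem_of_mem_tail hv
  have hne : v ≠ u 0 := by
    rintro rfl
    cases hp : pre m τ N with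
    | nil => rw [hp] at hmem; simp at hmem
    | cons a l =>
      rw [hp] at hv hnd hh
      simp only [List.head?_cons, Option.some.injEq] at hh
      subst hh
      exact (List.nodup_cons.1 hnd).1 hv
  rw [mem_pre] at hmem
  rcases hmem with ⟨i, hi, rfl⟩ | ⟨i, hi, h, h1, rfl⟩
  · left
    refine ⟨i, ?_, rfl⟩
    rcases Nat.eq_zero_or_pos i with h | h
    · subst h; exact absurd rfl hne
    · exact h
  · exact Or.inr ⟨i, h, rfl⟩

/-- A satisfying assignment gives odd paths. -/
theorem paths_of_sat {τ : ℕ → Bool} (hτ : ∀ j < m, ∃ l ∈ cl j, τ l.2 = l.1) :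
    HasOddPaths (edges m N cl) (m + 1) (XX m) (YY m) := by
  classical
  -- the long path
  have hnd : (long m N τ).Nodup := by
    unfold long
    rw [List.nodup_append]
    refine ⟨nodup_pre, by simp, ?_⟩
    intro a ha b hb
    rw [List.mem_singleton] at hb
    subst hb
    rw [mem_pre] at ha
    rcases ha with ⟨i, -, rfl⟩ | ⟨i, -, h, -, rfl⟩ <;> simp
  have hch : (long m N τ).IsChain (Adj (edges m N cl)) := by
    unfold long
    rw [List.isChain_append]
    refine ⟨isChain_pre le_rfl, List.isChain_singleton _, ?_⟩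
    intro a ha b hb
    rw [getLast?_pre] at ha
    simp only [Option.mem_def, Option.some.injEq, List.head?_cons] at ha hb
    subst ha hb
    exact Or.inl (mem_edges.2 (Or.inl rfl))
  obtain ⟨es, hes⟩ := exists_isPath (by simp [long]) hnd hch
  have hlen : es.length = N * (2 * m + 2) + 1 := by
    have := hes.2.1
    unfold long at this
    rw [List.length_append, length_pre, List.length_singleton] at this
    omega
  -- the short paths
  have hτ' : ∀ j, ∃ l : Bool × ℕ, j < m → l ∈ cl j ∧ τ l.2 = l.1 := by
    intro j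
    by_cases hj : j < m
    · obtain ⟨l, hl⟩ := hτ j hj
      exact ⟨l, fun _ => hl⟩
    · exact ⟨(false, 0), fun h => absurd h hj⟩
  choose l hl using hτ'
  let sh : ℕ → List Vx := fun j => [x j, c (l j).2 (l j).1 (2 * j + 1), q j, y j]
  have hsh : ∀ j, ∃ es, j < m → IsPath (edges m N cl) (sh j) es := by
    intro j
    by_cases hj : j < m
    · have hmem : ∀ e, e ∈ clauseE cl j → e ∈ edges m N cl := by
        intro e he
        rw [mem_clauseE] at he
        exact mem_edges.2 (Or.inr (Or.inr ⟨j, hj, he⟩))
      obtain ⟨es, he⟩ := exists_isPath (E := edges m N cl) (vs := sh j) (by simp [sh])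
        (by simp [sh]) (by
          simp only [sh, List.isChain_cons_cons, List.isChain_singleton, and_true]
          refine ⟨Or.inl (hmem _ ?_), Or.inl (hmem _ ?_), Or.inl (hmem _ ?_)⟩
          · exact mem_clauseE.2 (Or.inr ⟨l j, (hl j hj).1, Or.inl rfl⟩)
          · exact mem_clauseE.2 (Or.inr ⟨l j, (hl j hj).1, Or.inr rfl⟩)
          · exact mem_clauseE.2 (Or.inl rfl))
      exact ⟨es, fun _ => he⟩
    · exact ⟨[], fun h => absurd h hj⟩
  choose fs hfs using hsh
  have hinner : ∀ j, inner (sh j) = [c (l j).2 (l j).1 (2 * j + 1), q j] := fun j => rfl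
  have hflen : ∀ j < m, (fs j).length = 3 := by
    intro j hj
    have := (hfs j hj).2.1
    simp only [sh, List.length_cons, List.length_nil] at this
    omega
  refine ⟨(long m N τ, es) :: (List.range m).map (fun j => (sh j, fs j)), by simp, ?_, ?_⟩
  · intro p hp
    rw [List.mem_cons, List.mem_map] at hp
    rcases hp with rfl | ⟨j, hj, rfl⟩
    · refine ⟨⟨hes, ⟨u 0, mem_XX.2 (Or.inl rfl), ?_⟩, ⟨t, mem_YY.2 (Or.inl rfl), ?_⟩, ?_⟩, ?_⟩
      · simp only [long, List.head?_append, head?_pre, Option.some_or]
      · simp only [long, List.getLast?_concat]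
      · intro v hv
        rcases inner_long v hv with ⟨i, hi, rfl⟩ | ⟨i, h, rfl⟩
        · rw [mem_XX, mem_YY]
          simp only [Vx.u.injEq, reduceCtorEq, and_false, exists_false, or_false,
            not_false_eq_true, and_true]
          omega
        · rw [mem_XX, mem_YY]
          simp
      · rw [hlen]
        exact ⟨N * (m + 1), by ring⟩
    · rw [List.mem_range] at hj
      refine ⟨⟨hfs j hj, ⟨x j, mem_XX.2 (Or.inr ⟨j, hj, rfl⟩), rfl⟩,
        ⟨y j, mem_YY.2 (Or.inr ⟨j, hj, rfl⟩), rfl⟩, ?_⟩, ?_⟩
      · intro v hv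
        rw [hinner, List.mem_cons, List.mem_singleton] at hv
        rcases hv with rfl | rfl <;> rw [mem_XX, mem_YY] <;> simp
      · rw [hflen j hj]
        exact ⟨1, rfl⟩
  · rw [List.pairwise_cons]
    constructor
    · intro p hp
      obtain ⟨j, hj, rfl⟩ := List.mem_map.1 hp
      rw [List.mem_range] at hj
      have hd : (inner (long m N τ)).Disjoint (inner (sh j)) := by
        intro v h1 h2
        rw [hinner, List.mem_cons, List.mem_singleton] at h2
        rcases inner_long v h1 with ⟨i, hi, rfl⟩ | ⟨i, h, rfl⟩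
        · simp at h2
        · rcases h2 with h2 | h2
          · simp only [Vx.c.injEq] at h2
            obtain ⟨h3, h4, -⟩ := h2
            have := (hl j hj).2
            rw [h3, ← this] at h4
            simp at h4
          · simp at h2
      refine ⟨?_, hd⟩
      have := es_ne_of_disjoint (hfs j hj) hes (by rw [hflen j hj]; omega) hd.symm
      exact this.symm
    · rw [List.pairwise_map]
      have h1 : (List.range m).Pairwise (fun a b => a ≠ b) := List.nodup_range
      refine List.Pairwise.imp_of_mem ?_ h1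
      intro a b ha hb hab
      rw [List.mem_range] at ha hb
      have hd : (inner (sh a)).Disjoint (inner (sh b)) := by
        intro v h1 h2
        rw [hinner, List.mem_cons, List.mem_singleton] at h1 h2
        rcases h1 with rfl | rfl
        · rcases h2 with h2 | h2
          · simp only [Vx.c.injEq] at h2
            omega
          · simp at h2
        · rcases h2 with h2 | h2
          · simp at h2
          · simp only [Vx.q.injEq] at h2
            exact hab h2
      exact ⟨es_ne_of_disjoint (hfs a ha) (hfs b hb) (by rw [hflen a ha]; omega) hd, hd⟩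

end Pool.Agent.TH654.Odd
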