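import Pool.Agent.TH654.Odd.Path

/-!
# Disjoint odd paths: the graph of a formula
-/

namespace Pool.Agent.TH654.Odd

/-- The vertices of the graph of a formula. -/
inductive Vx : Type
  | x (j : ℕ)
  | y (j : ℕ)
  | q (j : ℕ)
  | t
  | u (i : ℕ)
  | c (i : ℕ) (b : Bool) (h : ℕ)
  deriving DecidableEq

open Vx

/-- one side of the part of the chain belonging to the variable `i` -/
def chainE (m i : ℕ) (b : Bool) : List (Vx × Vx) :=
  (u i, c i b 0) :: (c i b (2 * m), u (i + 1)) ::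
    (List.range (2 * m)).map (fun h => (c i b h, c i b (h + 1)))

/-- the edges belonging to the clause `j` -/
def clauseE (cl : ℕ → List (Bool × ℕ)) (j : ℕ) : List (Vx × Vx) :=
  (q j, y j) :: (cl j).flatMap (fun l =>
    [(x j, c l.2 l.1 (2 * j + 1)), (c l.2 l.1 (2 * j + 1), q j)])

/-- The graph of the formula with `m` clauses and `N` variables. -/
def edges (m N : ℕ) (cl : ℕ → List (Bool × ℕ)) : List (Vx × Vx) :=
  (u N, t) :: ((List.range N).flatMap (fun i => chainE m i false ++ chainE m i true) ++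
    (List.range m).flatMap (clauseE cl))

/-- the set `X` -/
def XX (m : ℕ) : List Vx := u 0 :: (List.range m).map x

/-- the set `Y` -/
def YY (m : ℕ) : List Vx := t :: (List.range m).map y

theorem mem_chainE {m i : ℕ} {b : Bool} {e : Vx × Vx} : e ∈ chainE m i b ↔
    e = (u i, c i b 0) ∨ e = (c i b (2 * m), u (i + 1)) ∨
      ∃ h < 2 * m, e = (c i b h, c i b (h + 1)) := by
  unfold chainE
  simp only [List.mem_cons, List.mem_map, List.mem_range]
  constructor
  · rintro (h | h | ⟨h, h1, rfl⟩)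
    · exact Or.inl h
    · exact Or.inr (Or.inl h)
    · exact Or.inr (Or.inr ⟨h, h1, rfl⟩)
  · rintro (h | h | ⟨h, h1, rfl⟩)
    · exact Or.inl h
    · exact Or.inr (Or.inl h)
    · exact Or.inr (Or.inr ⟨h, h1, rfl⟩)

theorem mem_clauseE {cl : ℕ → List (Bool × ℕ)} {j : ℕ} {e : Vx × Vx} : e ∈ clauseE cl j ↔
    e = (q j, y j) ∨ ∃ l ∈ cl j, e = (x j, c l.2 l.1 (2 * j + 1)) ∨
      e = (c l.2 l.1 (2 * j + 1), q j) := by
  unfold clauseE
  simp only [List.mem_cons, List.mem_flatMap, List.not_mem_nil, or_false]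

theorem mem_edges {m N : ℕ} {cl : ℕ → List (Bool × ℕ)} {e : Vx × Vx} : e ∈ edges m N cl ↔
    e = (u N, t) ∨ (∃ i < N, ∃ b, e = (u i, c i b 0) ∨ e = (c i b (2 * m), u (i + 1)) ∨
      ∃ h < 2 * m, e = (c i b h, c i b (h + 1))) ∨
    (∃ j < m, e = (q j, y j) ∨ ∃ l ∈ cl j, e = (x j, c l.2 l.1 (2 * j + 1)) ∨
      e = (c l.2 l.1 (2 * j + 1), q j)) := by
  unfold edges
  simp only [List.mem_cons, List.mem_append, List.mem_flatMap, List.mem_range, mem_chainE,
    mem_clauseE]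
  constructor
  · rintro (h | ⟨i, hi, h | h⟩ | ⟨j, hj, h⟩)
    · exact Or.inl h
    · exact Or.inr (Or.inl ⟨i, hi, false, h⟩)
    · exact Or.inr (Or.inl ⟨i, hi, true, h⟩)
    · exact Or.inr (Or.inr ⟨j, hj, h⟩)
  · rintro (h | ⟨i, hi, b, h⟩ | ⟨j, hj, h⟩)
    · exact Or.inl h
    · refine Or.inr (Or.inl ⟨i, hi, ?_⟩)
      cases b
      · exact Or.inl h
      · exact Or.inr h
    · exact Or.inr (Or.inr ⟨j, hj, h⟩)

/-- The bipartition of the graph. -/
def col : Vx → Bool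
  | x _ => false
  | y _ => true
  | q _ => false
  | t => false
  | u _ => true
  | c _ _ h => decide (h % 2 = 1)

theorem col_edges {m N : ℕ} {cl : ℕ → List (Bool × ℕ)} : ∀ e ∈ edges m N cl,
    col e.1 ≠ col e.2 := by
  intro e he
  rw [mem_edges] at he
  rcases he with rfl | ⟨i, hi, b, rfl | rfl | ⟨h, hh, rfl⟩⟩ | ⟨j, hj, rfl | ⟨l, hl, rfl | rfl⟩⟩
  · simp [col]
  · simp [col]
  · simp [col]
  · simp only [col]
    rcases Nat.mod_two_eq_zero_or_one h with h1 | h1
    · have : (h + 1) % 2 = 1 := by omega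
      simp [h1, this]
    · have : (h + 1) % 2 = 0 := by omega
      simp [h1, this]
  · simp [col]
  · simp only [col]
    have : (2 * j + 1) % 2 = 1 := by omega
    simp [this]
  · simp only [col]
    have : (2 * j + 1) % 2 = 1 := by omega
    simp [this]

section Neigh

variable {m N : ℕ} {cl : ℕ → List (Bool × ℕ)}

theorem adj_t {w : Vx} (h : Adj (edges m N cl) w t) : w = u N := by
  rcases h with h | h <;> rw [mem_edges] at h <;>
    rcases h with h | ⟨i, hi, b, h | h | ⟨k, hk, h⟩⟩ | ⟨j', hj, h | ⟨l, hl, h | h⟩⟩ <;>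
    simp_all

theorem adj_y {w : Vx} {j : ℕ} (h : Adj (edges m N cl) w (y j)) : w = q j := by
  rcases h with h | h <;> rw [mem_edges] at h <;>
    rcases h with h | ⟨i, hi, b, h | h | ⟨k, hk, h⟩⟩ | ⟨j', hj, h | ⟨l, hl, h | h⟩⟩ <;>
    simp_all

theorem adj_q {w : Vx} {j : ℕ} (h : Adj (edges m N cl) w (q j)) :
    w = y j ∨ ∃ l ∈ cl j, w = c l.2 l.1 (2 * j + 1) := by
  rcases h with h | h <;> rw [mem_edges] at h <;>
    rcases h with h | ⟨i, hi, b, h | h | ⟨k, hk, h⟩⟩ | ⟨j', hj, h | ⟨l, hl, h | h⟩⟩ <;>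
    simp only [Prod.mk.injEq, reduceCtorEq, and_false, false_and, Vx.q.injEq] at h
  · obtain ⟨h1, rfl⟩ := h
    exact Or.inr ⟨l, hl, h1⟩
  · obtain ⟨rfl, h1⟩ := h
    exact Or.inl h1

end Neigh

end Pool.Agent.TH654.Odd
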