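import Pool.Agent.TH654.Odd.Trans
import Pool.Agent.NPC.Sat2

/-!
# Disjoint odd paths: the reduction from 3SAT
-/

namespace Pool.Agent.TH654.Odd

open Pool.Agent.NPC

/-- the numbers of the vertices -/
def enc : Vx → ℕ
  | Vx.x j => 6 * j
  | Vx.y j => 6 * j + 1
  | Vx.q j => 6 * j + 2
  | Vx.u i => 6 * i + 3
  | Vx.t => 4
  | Vx.c i b h => 6 * Nat.pair i (2 * h + b.toNat) + 5

theorem enc_injective : Function.Injective enc := by
  intro a b hab
  cases a <;> cases b <;> simp only [enc] at hab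
  all_goals first
    | (exfalso; omega)
    | rfl
    | skip
  · rename_i j j'
    have : j = j' := by omega
    rw [this]
  · rename_i j j'
    have : j = j' := by omega
    rw [this]
  · rename_i j j'
    have : j = j' := by omega
    rw [this]
  · rename_i j j'
    have : j = j' := by omega
    rw [this]
  · rename_i i b h i' b' h'
    have h1 : Nat.pair i (2 * h + b.toNat) = Nat.pair i' (2 * h' + b'.toNat) := by omega
    rw [Nat.pair_eq_pair] at h1
    obtain ⟨rfl, h2⟩ := h1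
    cases b <;> cases b' <;> simp only [Bool.toNat_false, Bool.toNat_true] at h2
    · have : h = h' := by omega
      rw [this]
    · omega
    · omega
    · have : h = h' := by omega
      rw [this]

/-- The literals of the clause number `j`. -/
def lits (φ : List (Lit ℕ × Lit ℕ × Lit ℕ)) (j : ℕ) : List (Bool × ℕ) :=
  match φ[j]? with
  | none => []
  | some c => [c.1, c.2.1, c.2.2]

/-- The number of vertices. -/
def nv (m : ℕ) : ℕ := 6 * ((7 * m + 2) * (7 * m + 2)) + 6

/-- The reduction. -/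
def red (φ : List (Lit ℕ × Lit ℕ × Lit ℕ)) : Inst :=
  (List.replicate (nv φ.length) (),
    (edges φ.length (3 * φ.length) (lits φ)).map (Prod.map enc enc), φ.length + 1,
    (XX φ.length).map enc, (YY φ.length).map enc)

section PolyFacts

variable {α : Type} [TEnc α]

theorem poly_npair {f g : α → ℕ} (hf : Poly f) (hg : Poly g) :
    Poly (fun a => Nat.pair (f a) (g a)) := by
  unfold Nat.pair
  exact Poly.ite (Poly.decide_lt hf hg) (Poly.add (Poly.mul hg hg) hf)
    (Poly.add (Poly.add (Poly.mul hf hf) hf) hg)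

theorem poly_six {f : α → ℕ} (hf : Poly f) (r : ℕ) : Poly (fun a => 6 * f a + r) :=
  Poly.add (Poly.mul (NPC.Poly.const 6) hf) (NPC.Poly.const r)

theorem poly_c {i h : α → ℕ} {b : α → Bool} (hi : Poly i) (hb : Poly b) (hh : Poly h) :
    Poly (fun a => 6 * Nat.pair (i a) (2 * h a + (b a).toNat) + 5) := by
  refine poly_six (poly_npair hi (Poly.add (Poly.mul (NPC.Poly.const 2) hh) ?_)) 5
  exact (Poly.cond hb (NPC.Poly.const 1) (NPC.Poly.const 0)).congr fun a => by
    cases b a <;> rfl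

theorem poly_nil {β : Type} [TEnc β] : Poly (fun _ : α => ([] : List β)) := NPC.Poly.const _

theorem poly_lits {φ : α → List (Lit ℕ × Lit ℕ × Lit ℕ)} {j : α → ℕ} (hφ : Poly φ) (hj : Poly j) :
    Poly (fun a => lits (φ a) (j a)) := by
  refine (Poly.optCases (g := fun _ => ([] : List (Bool × ℕ)))
    (h := fun _ (c : Lit ℕ × Lit ℕ × Lit ℕ) => [c.1, c.2.1, c.2.2]) (Poly.getElem? hφ hj)
    poly_nil
    (Poly.cons (Poly.fst (Poly.snd Poly.id)) (Poly.cons (Poly.fst (Poly.snd (Poly.snd Poly.id)))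
      (Poly.cons (Poly.snd (Poly.snd (Poly.snd Poly.id))) poly_nil)))).congr fun a => ?_
  unfold lits
  cases (φ a)[j a]? <;> rfl

end PolyFacts

theorem map_chainE (m i : ℕ) (b : Bool) : (chainE m i b).map (Prod.map enc enc) =
    (6 * i + 3, 6 * Nat.pair i (2 * 0 + b.toNat) + 5) ::
    (6 * Nat.pair i (2 * (2 * m) + b.toNat) + 5, 6 * (i + 1) + 3) ::
    (List.range (2 * m)).map (fun h => (6 * Nat.pair i (2 * h + b.toNat) + 5,
      6 * Nat.pair i (2 * (h + 1) + b.toNat) + 5)) := by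
  simp [chainE, enc, Function.comp_def]

theorem map_clauseE (cl : ℕ → List (Bool × ℕ)) (j : ℕ) :
    (clauseE cl j).map (Prod.map enc enc) =
    (6 * j + 2, 6 * j + 1) :: (cl j).flatMap (fun l =>
      [(6 * j + 0, 6 * Nat.pair l.2 (2 * (2 * j + 1) + l.1.toNat) + 5),
        (6 * Nat.pair l.2 (2 * (2 * j + 1) + l.1.toNat) + 5, 6 * j + 2)]) := by
  simp [clauseE, enc, List.map_flatMap]

theorem red_poly : Poly red := by
  have hm : UPoly (fun φ : List (Lit ℕ × Lit ℕ × Lit ℕ) => φ.length) := UPoly.length Poly.id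
  have hN : UPoly (fun φ : List (Lit ℕ × Lit ℕ × Lit ℕ) => 3 * φ.length) :=
    UPoly.mul (UPoly.const 3) hm
  have h7 : UPoly (fun φ : List (Lit ℕ × Lit ℕ × Lit ℕ) => 7 * φ.length + 2) :=
    UPoly.add (UPoly.mul (UPoly.const 7) hm) (UPoly.const 2)
  have hn : UPoly (fun φ : List (Lit ℕ × Lit ℕ × Lit ℕ) => nv φ.length) :=
    UPoly.add (UPoly.mul (UPoly.const 6) (UPoly.mul h7 h7)) (UPoly.const 6)
  have hchain : ∀ b : Bool, Poly (fun p : List (Lit ℕ × Lit ℕ × Lit ℕ) × ℕ =>
      (chainE p.1.length p.2 b).map (Prod.map enc enc)) := by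
    intro b
    have h1 : Poly (fun p : List (Lit ℕ × Lit ℕ × Lit ℕ) × ℕ => p.2) := Poly.snd Poly.id
    have h2 : UPoly (fun p : List (Lit ℕ × Lit ℕ × Lit ℕ) × ℕ => 2 * p.1.length) :=
      UPoly.mul (UPoly.const 2) (UPoly.length (Poly.fst Poly.id))
    have hb : ∀ {α : Type} [TEnc α], Poly (fun _ : α => b) := NPC.Poly.const b
    refine Poly.congr (f := fun p : List (Lit ℕ × Lit ℕ × Lit ℕ) × ℕ =>
      (6 * p.2 + 3, 6 * Nat.pair p.2 (2 * 0 + b.toNat) + 5) ::
      (6 * Nat.pair p.2 (2 * (2 * p.1.length) + b.toNat) + 5, 6 * (p.2 + 1) + 3) ::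
      (List.range (2 * p.1.length)).map (fun h => (6 * Nat.pair p.2 (2 * h + b.toNat) + 5,
        6 * Nat.pair p.2 (2 * (h + 1) + b.toNat) + 5))) ?_
      (fun p => (map_chainE _ _ _).symm)
    refine Poly.cons (Poly.pair (poly_six h1 3) (poly_c h1 hb (NPC.Poly.const 0))) ?_
    refine Poly.cons (Poly.pair (poly_c h1 hb h2.toPoly) (poly_six (Poly.succ h1) 3)) ?_
    refine NPC.Poly.map (F := fun (p : List (Lit ℕ × Lit ℕ × Lit ℕ) × ℕ) h =>
      (6 * Nat.pair p.2 (2 * h + b.toNat) + 5, 6 * Nat.pair p.2 (2 * (h + 1) + b.toNat) + 5))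
      h2.range ?_
    exact Poly.pair (poly_c (h1.comp (Poly.fst Poly.id)) hb (Poly.snd Poly.id))
      (poly_c (h1.comp (Poly.fst Poly.id)) hb (Poly.succ (Poly.snd Poly.id)))
  have hclause : Poly (fun p : List (Lit ℕ × Lit ℕ × Lit ℕ) × ℕ =>
      (clauseE (lits p.1) p.2).map (Prod.map enc enc)) := by
    have h1 : Poly (fun p : List (Lit ℕ × Lit ℕ × Lit ℕ) × ℕ => p.2) := Poly.snd Poly.id
    refine Poly.congr (f := fun p : List (Lit ℕ × Lit ℕ × Lit ℕ) × ℕ =>
      (6 * p.2 + 2, 6 * p.2 + 1) :: (lits p.1 p.2).flatMap (fun l =>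
      [(6 * p.2 + 0, 6 * Nat.pair l.2 (2 * (2 * p.2 + 1) + l.1.toNat) + 5),
        (6 * Nat.pair l.2 (2 * (2 * p.2 + 1) + l.1.toNat) + 5, 6 * p.2 + 2)])) ?_
      (fun p => (map_clauseE _ _).symm)
    refine Poly.cons (Poly.pair (poly_six h1 2) (poly_six h1 1)) ?_
    refine Poly.flatMap (F := fun (p : List (Lit ℕ × Lit ℕ × Lit ℕ) × ℕ) (l : Bool × ℕ) =>
      [(6 * p.2 + 0, 6 * Nat.pair l.2 (2 * (2 * p.2 + 1) + l.1.toNat) + 5),
        (6 * Nat.pair l.2 (2 * (2 * p.2 + 1) + l.1.toNat) + 5, 6 * p.2 + 2)])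
      (poly_lits (Poly.fst Poly.id) h1) ?_
    have h2 : Poly (fun x : (List (Lit ℕ × Lit ℕ × Lit ℕ) × ℕ) × Bool × ℕ => x.1.2) :=
      h1.comp (Poly.fst Poly.id)
    have h3 : Poly (fun x : (List (Lit ℕ × Lit ℕ × Lit ℕ) × ℕ) × Bool × ℕ =>
        6 * Nat.pair x.2.2 (2 * (2 * x.1.2 + 1) + x.2.1.toNat) + 5) :=
      poly_c (Poly.snd (Poly.snd Poly.id)) (Poly.fst (Poly.snd Poly.id))
        (Poly.succ (Poly.mul (NPC.Poly.const 2) h2))
    exact Poly.cons (Poly.pair (poly_six h2 0) h3)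
      (Poly.cons (Poly.pair h3 (poly_six h2 2)) poly_nil)
  have hedges : Poly (fun φ : List (Lit ℕ × Lit ℕ × Lit ℕ) =>
      (edges φ.length (3 * φ.length) (lits φ)).map (Prod.map enc enc)) := by
    refine Poly.congr (f := fun φ : List (Lit ℕ × Lit ℕ × Lit ℕ) =>
      (6 * (3 * φ.length) + 3, 4) ::
      ((List.range (3 * φ.length)).flatMap (fun i =>
        (chainE φ.length i false).map (Prod.map enc enc) ++
        (chainE φ.length i true).map (Prod.map enc enc)) ++
      (List.range φ.length).flatMap (fun j =>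
        (clauseE (lits φ) j).map (Prod.map enc enc)))) ?_ ?_
    · refine Poly.cons (Poly.pair (poly_six hN.toPoly 3) (NPC.Poly.const 4)) ?_
      refine Poly.append ?_ ?_
      · exact Poly.flatMap (F := fun (φ : List (Lit ℕ × Lit ℕ × Lit ℕ)) i =>
          (chainE φ.length i false).map (Prod.map enc enc) ++
          (chainE φ.length i true).map (Prod.map enc enc)) hN.range
          (Poly.append (hchain false) (hchain true))
      · exact Poly.flatMap (F := fun (φ : List (Lit ℕ × Lit ℕ × Lit ℕ)) j =>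
          (clauseE (lits φ) j).map (Prod.map enc enc)) hm.range hclause
    · intro φ
      simp [edges, enc, List.map_flatMap]
  have hx : Poly (fun φ : List (Lit ℕ × Lit ℕ × Lit ℕ) => (XX φ.length).map enc) := by
    refine Poly.congr (f := fun φ : List (Lit ℕ × Lit ℕ × Lit ℕ) =>
      3 :: (List.range φ.length).map (fun j => 6 * j + 0)) ?_ ?_
    · exact Poly.cons (NPC.Poly.const 3) (NPC.Poly.map (F := fun _ j => 6 * j + 0) hm.range
        (poly_six (Poly.snd Poly.id) 0))
    · intro φ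
      simp [XX, enc, Function.comp_def]
  have hy : Poly (fun φ : List (Lit ℕ × Lit ℕ × Lit ℕ) => (YY φ.length).map enc) := by
    refine Poly.congr (f := fun φ : List (Lit ℕ × Lit ℕ × Lit ℕ) =>
      4 :: (List.range φ.length).map (fun j => 6 * j + 1)) ?_ ?_
    · exact Poly.cons (NPC.Poly.const 4) (NPC.Poly.map (F := fun _ j => 6 * j + 1) hm.range
        (poly_six (Poly.snd Poly.id) 1))
    · intro φ
      simp [YY, enc, Function.comp_def]
  exact Poly.pair hn (Poly.pair hedges (Poly.pair (Poly.succ hm.toPoly) (Poly.pair hx hy)))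

theorem enc_c_lt {m i h : ℕ} {b : Bool} (hi : i < 3 * m) (hh : h ≤ 2 * m) :
    enc (Vx.c i b h) < nv m := by
  have hb : b.toNat ≤ 1 := Bool.toNat_le b
  have h1 : Nat.pair i (2 * h + b.toNat) < (max i (2 * h + b.toNat) + 1) ^ 2 :=
    Nat.pair_lt_max_add_one_sq _ _
  have h2 : max i (2 * h + b.toNat) + 1 ≤ 7 * m + 2 := by
    have := max_le (a := i) (b := 2 * h + b.toNat) (c := 7 * m + 1) (by omega) (by omega)
    omega
  have h3 := Nat.pow_le_pow_left h2 2
  have h4 : (7 * m + 2) ^ 2 = (7 * m + 2) * (7 * m + 2) := sq _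
  simp only [enc, nv]
  omega

theorem lin_lt_nv (m : ℕ) : 6 * (3 * m) + 6 ≤ nv m := by
  unfold nv
  nlinarith [Nat.zero_le m, Nat.zero_le (m * m)]

theorem lits_lt {φ : List (Lit ℕ × Lit ℕ × Lit ℕ)} (hφ : Bounded3 φ) {j : ℕ} {l : Bool × ℕ}
    (hl : l ∈ lits φ j) : l.2 < 3 * φ.length := by
  unfold lits at hl
  cases h : φ[j]? with
  | none => rw [h] at hl; simp at hl
  | some c =>
    rw [h] at hl
    have hc := hφ c (List.mem_of_getElem? h)
    simp only [List.mem_cons, List.not_mem_nil, or_false] at hl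
    rcases hl with rfl | rfl | rfl
    · exact hc.1
    · exact hc.2.1
    · exact hc.2.2

/-- All instances produced by the reduction are well-formed. -/
theorem valid_red {φ : List (Lit ℕ × Lit ℕ × Lit ℕ)} (hφ : Bounded3 φ) (hne : φ ≠ []) :
    Valid (red φ) := by
  have hm : 0 < φ.length := List.length_pos_iff.2 hne
  have hl := lin_lt_nv φ.length
  have hinj := enc_injective
  unfold Valid red
  simp only [List.length_replicate]
  refine ⟨?_, by omega, ⟨?_, by simp [XX], ?_⟩, ⟨?_, by simp [YY], ?_⟩⟩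
  · intro e he
    obtain ⟨e', he', rfl⟩ := List.mem_map.1 he
    rw [mem_edges] at he'
    rcases he' with rfl | ⟨i, hi, b, rfl | rfl | ⟨h, hh, rfl⟩⟩ |
      ⟨j, hj, rfl | ⟨l, hl', rfl | rfl⟩⟩ <;> simp only [Prod.map_apply]
    · simp only [enc]; omega
    · exact ⟨by simp only [enc]; omega, enc_c_lt hi (by omega)⟩
    · exact ⟨enc_c_lt hi (by omega), by simp only [enc]; omega⟩
    · exact ⟨enc_c_lt hi (by omega), enc_c_lt hi (by omega)⟩
    · simp only [enc]; omega
    · exact ⟨by simp only [enc]; omega, enc_c_lt (lits_lt hφ hl') (by omega)⟩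
    · exact ⟨enc_c_lt (lits_lt hφ hl') (by omega), by simp only [enc]; omega⟩
  · refine List.Nodup.map hinj ?_
    unfold XX
    rw [List.nodup_cons]
    refine ⟨by simp, List.Nodup.map (fun a b h => by simpa using h) List.nodup_range⟩
  · intro v hv
    obtain ⟨w, hw, rfl⟩ := List.mem_map.1 hv
    rw [mem_XX] at hw
    rcases hw with rfl | ⟨j, hj, rfl⟩ <;> simp only [enc] <;> omega
  · refine List.Nodup.map hinj ?_
    unfold YY
    rw [List.nodup_cons]
    refine ⟨by simp, List.Nodup.map (fun a b h => by simpa using h) List.nodup_range⟩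
  · intro v hv
    obtain ⟨w, hw, rfl⟩ := List.mem_map.1 hv
    rw [mem_YY] at hw
    rcases hw with rfl | ⟨j, hj, rfl⟩ <;> simp only [enc] <;> omega

theorem sat_iff (φ : List (Lit ℕ × Lit ℕ × Lit ℕ)) :
    SAT3 φ ↔ ∃ τ : ℕ → Bool, ∀ j < φ.length, ∃ l ∈ lits φ j, τ l.2 = l.1 := by
  unfold SAT3 Sat3V
  refine exists_congr fun τ => ?_
  constructor
  · intro h j hj
    have h1 := h _ (List.getElem_mem hj)
    have h2 : φ[j]? = some φ[j] := List.getElem?_eq_getElem hj
    unfold lits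
    rw [h2]
    rcases h1 with h1 | h1 | h1
    · exact ⟨_, by simp, h1⟩
    · exact ⟨_, List.mem_cons_of_mem _ (List.mem_cons_self), h1⟩
    · exact ⟨_, List.mem_cons_of_mem _ (List.mem_cons_of_mem _ List.mem_cons_self), h1⟩
  · intro h c hc
    obtain ⟨j, hj⟩ := List.mem_iff_getElem?.1 hc
    have hlt := (List.getElem?_eq_some_iff.1 hj).1
    obtain ⟨l, hl, hτ⟩ := h j hlt
    unfold lits at hl
    rw [hj] at hl
    simp only [List.mem_cons, List.not_mem_nil, or_false] at hl
    rcases hl with rfl | rfl | rfl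
    · exact Or.inl hτ
    · exact Or.inr (Or.inl hτ)
    · exact Or.inr (Or.inr hτ)

theorem red_correct {φ : List (Lit ℕ × Lit ℕ × Lit ℕ)} (hφ : Bounded3 φ) (hne : φ ≠ []) :
    SAT3 φ ↔ OddPaths (red φ) := by
  have hm : 0 < φ.length := List.length_pos_iff.2 hne
  unfold OddPaths
  rw [sat_iff, and_iff_right (valid_red hφ hne)]
  unfold red
  rw [hasOddPaths_map enc_injective]
  constructor
  · rintro ⟨τ, hτ⟩
    exact paths_of_sat hτ
  · intro h
    exact sat_of_paths (by omega) (fun j hj l hl => lits_lt hφ hl) h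

/-- ODD-PATHS is hard for `NP`; all instances produced are well-formed. -/
theorem hardPr_oddPaths : HardPr Valid OddPaths := by
  refine HardPr.trans hardPr_SAT3b red_poly ?_ ?_
  · rintro φ ⟨-, h1, h2⟩
    exact valid_red h1 h2
  · rintro φ ⟨-, h1, h2⟩
    exact red_correct h1 h2

end Pool.Agent.TH654.Odd
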