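import Pool.Agent.TH654.Odd.Defs

/-!
# Disjoint odd paths: general facts about paths given by lists
-/

namespace Pool.Agent.TH654.Odd

variable {V : Type}

/-- adjacency in the multigraph with edge list `E` -/
def Adj (E : List (V × V)) (u v : V) : Prop := (u, v) ∈ E ∨ (v, u) ∈ E

theorem Adj.symm {E : List (V × V)} {u v : V} (h : Adj E u v) : Adj E v u := Or.symm h

theorem IsPath.adj {E : List (V × V)} {vs : List V} {es : List ℕ} (h : IsPath E vs es) {i : ℕ}
    {u v : V} (hu : vs[i]? = some u) (hv : vs[i + 1]? = some v) : Adj E u v := by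
  obtain ⟨e, -, h1 | h1⟩ := h.2.2 i u v hu hv
  · exact Or.inl (List.mem_of_getElem? h1)
  · exact Or.inr (List.mem_of_getElem? h1)

/-- A list of different vertices whose consecutive entries are adjacent is a path. -/
theorem exists_isPath {E : List (V × V)} : ∀ {vs : List V}, vs ≠ [] → vs.Nodup →
    vs.IsChain (Adj E) → ∃ es, IsPath E vs es := by
  intro vs
  induction vs with
  | nil => intro h; exact absurd rfl h
  | cons a l ih =>
    intro _ hnd hch
    cases l with
    | nil => exact ⟨[], hnd, rfl, by simp⟩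
    | cons b l =>
      obtain ⟨es, h1, h2, h3⟩ := ih (by simp) (List.nodup_cons.1 hnd).2 (List.isChain_cons_cons.1 hch).2
      have hab : Adj E a b := (List.isChain_cons_cons.1 hch).1
      obtain ⟨e, he⟩ : ∃ e, E[e]? = some (a, b) ∨ E[e]? = some (b, a) := by
        rcases hab with h | h
        · obtain ⟨e, he⟩ := List.mem_iff_getElem?.1 h
          exact ⟨e, Or.inl he⟩
        · obtain ⟨e, he⟩ := List.mem_iff_getElem?.1 h
          exact ⟨e, Or.inr he⟩
      refine ⟨e :: es, hnd, by simp [h2], ?_⟩
      intro i u v hu hv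
      cases i with
      | zero =>
        simp only [List.getElem?_cons_zero, Option.some.injEq, zero_add,
          List.getElem?_cons_succ] at hu hv
        subst hu hv
        exact ⟨e, by simp, he⟩
      | succ i =>
        rw [List.getElem?_cons_succ] at hu hv
        obtain ⟨e', he1, he2⟩ := h3 i u v hu hv
        exact ⟨e', by simpa using he1, he2⟩

/-- Along a path the colours alternate, if adjacent vertices have different colours. -/
theorem IsPath.color {E : List (V × V)} {vs : List V} {es : List ℕ} (h : IsPath E vs es)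
    {c : V → Bool} (hc : ∀ e ∈ E, c e.1 ≠ c e.2) {a : V} (ha : vs[0]? = some a) :
    ∀ (i : ℕ) (b : V), vs[i]? = some b → c b = (c a ^^ decide (i % 2 = 1)) := by
  have hadj : ∀ u v, Adj E u v → c v = !(c u) := by
    intro u v huv
    have : c u ≠ c v := by
      rcases huv with h | h
      · exact hc _ h
      · exact (hc _ h).symm
    revert this
    cases c u <;> cases c v <;> simp
  intro i
  induction i with
  | zero =>
    intro b hb
    rw [ha] at hb
    cases hb
    simp
  | succ i ih =>
    intro b hb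
    have hlt : i < vs.length := by
      have := (List.getElem?_eq_some_iff.1 hb).1
      omega
    have h1 : vs[i]? = some vs[i] := List.getElem?_eq_getElem hlt
    have h2 := hadj _ _ (h.adj h1 hb)
    rw [h2, ih _ h1]
    rcases Nat.mod_two_eq_zero_or_one i with h3 | h3
    · have : (i + 1) % 2 = 1 := by omega
      simp [h3, this]
    · have : (i + 1) % 2 = 0 := by omega
      simp [h3, this]

/-- the entries of a list at internal positions are internal vertices -/
theorem mem_inner_of_getElem? {vs : List V} {i : ℕ} {v : V} (hv : vs[i]? = some v) (h0 : 0 < i)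
    (h1 : i + 1 < vs.length) : v ∈ inner vs := by
  unfold inner
  rw [List.mem_iff_getElem?]
  refine ⟨i - 1, ?_⟩
  rw [List.getElem?_dropLast]
  have : i - 1 < vs.tail.length - 1 := by
    rw [List.length_tail]; omega
  rw [if_pos this, List.getElem?_tail, Nat.sub_add_cancel h0]
  exact hv

/-- conversely -/
theorem exists_getElem?_of_mem_inner {vs : List V} {v : V} (h : v ∈ inner vs) :
    ∃ i, 0 < i ∧ i + 1 < vs.length ∧ vs[i]? = some v := by
  unfold inner at h
  rw [List.mem_iff_getElem?] at h
  obtain ⟨i, hi⟩ := h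
  rw [List.getElem?_dropLast] at hi
  split_ifs at hi with h1
  rw [List.getElem?_tail] at hi
  rw [List.length_tail] at h1
  exact ⟨i + 1, by omega, by omega, hi⟩

/-- The vertex before the last one of a path of positive length. -/
theorem IsXYPath.getLast_adj {E : List (V × V)} {X Y : List V} {p : List V × List ℕ}
    (h : IsXYPath E X Y p) (hodd : Odd p.2.length) :
    ∃ w y, p.1[p.1.length - 2]? = some w ∧ p.1[p.1.length - 1]? = some y ∧ y ∈ Y ∧ Adj E w y ∧
      2 ≤ p.1.length := by
  have hlen := h.isPath.2.1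
  have hpos : 0 < p.2.length := hodd.pos
  have h2 : 2 ≤ p.1.length := by omega
  obtain ⟨y, hy, hy'⟩ := h.last
  rw [List.getLast?_eq_getElem?] at hy'
  have h3 : p.1.length - 2 < p.1.length := by omega
  have h4 : p.1[p.1.length - 2]? = some p.1[p.1.length - 2] := List.getElem?_eq_getElem h3
  refine ⟨_, y, h4, hy', hy, ?_, h2⟩
  refine h.isPath.adj h4 ?_
  have : p.1.length - 2 + 1 = p.1.length - 1 := by omega
  rw [this]
  exact hy'

/-- Different edges of internally disjoint paths of length at least two. -/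
theorem es_ne_of_disjoint {E : List (V × V)} {vs ws : List V} {es fs : List ℕ}
    (h : IsPath E vs es) (h' : IsPath E ws fs) (hlen : 2 ≤ es.length)
    (hd : (inner vs).Disjoint (inner ws)) : es ≠ fs := by
  rintro rfl
  have l1 : vs.length = es.length + 1 := h.2.1
  have l2 : ws.length = es.length + 1 := h'.2.1
  have g : ∀ i, i ≤ 2 → ∃ a, vs[i]? = some a := fun i hi =>
    ⟨vs[i], List.getElem?_eq_getElem (by omega)⟩
  have g' : ∀ i, i ≤ 2 → ∃ a, ws[i]? = some a := fun i hi =>
    ⟨ws[i], List.getElem?_eq_getElem (by omega)⟩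
  obtain ⟨v0, hv0⟩ := g 0 (by omega)
  obtain ⟨v1, hv1⟩ := g 1 (by omega)
  obtain ⟨v2, hv2⟩ := g 2 (by omega)
  obtain ⟨w0, hw0⟩ := g' 0 (by omega)
  obtain ⟨w1, hw1⟩ := g' 1 (by omega)
  obtain ⟨w2, hw2⟩ := g' 2 (by omega)
  obtain ⟨e, he, he'⟩ := h.2.2 0 v0 v1 hv0 hv1
  obtain ⟨f, hf, hf'⟩ := h.2.2 1 v1 v2 hv1 hv2
  obtain ⟨e1, he1, he1'⟩ := h'.2.2 0 w0 w1 hw0 hw1
  obtain ⟨f1, hf1, hf1'⟩ := h'.2.2 1 w1 w2 hw1 hw2
  rw [he] at he1
  rw [hf] at hf1
  cases he1
  cases hf1
  have hne : ∀ (i j : ℕ) (a b : V), i < j → vs[i]? = some a → vs[j]? = some b → a ≠ b := by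
    intro i j a b hij ha hb hab
    subst hab
    have := (List.getElem?_inj (List.getElem?_eq_some_iff.1 ha).1 h.1).1 (ha.trans hb.symm)
    omega
  have n02 : v0 ≠ v2 := hne 0 2 _ _ (by omega) hv0 hv2
  have n01 : v0 ≠ v1 := hne 0 1 _ _ (by omega) hv0 hv1
  have n12 : v1 ≠ v2 := hne 1 2 _ _ (by omega) hv1 hv2
  have key : w1 = v1 := by
    have a1 : w1 = v0 ∨ w1 = v1 := by
      rcases he' with h1 | h1 <;> rcases he1' with h2 | h2 <;> rw [h1] at h2 <;>
        simp only [Option.some.injEq, Prod.mk.injEq] at h2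
      · exact Or.inr h2.2.symm
      · exact Or.inl h2.1.symm
      · exact Or.inl h2.2.symm
      · exact Or.inr h2.1.symm
    have a2 : w1 = v1 ∨ w1 = v2 := by
      rcases hf' with h1 | h1 <;> rcases hf1' with h2 | h2 <;> rw [h1] at h2 <;>
        simp only [Option.some.injEq, Prod.mk.injEq] at h2
      · exact Or.inl h2.1.symm
      · exact Or.inr h2.2.symm
      · exact Or.inr h2.1.symm
      · exact Or.inl h2.2.symm
    rcases a1 with a1 | a1
    · rcases a2 with a2 | a2
      · exact a2
      · exact absurd (a1.symm.trans a2) n02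
    · exact a1
  subst key
  exact hd (mem_inner_of_getElem? hv1 (by omega) (by omega))
    (mem_inner_of_getElem? hw1 (by omega) (by omega))

end Pool.Agent.TH654.Odd
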