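import Pool.Agent.TH654.Odd.Forth

/-!
# Disjoint odd paths: renaming the vertices
-/

namespace Pool.Agent.TH654.Odd

variable {V W : Type}

theorem inner_map (f : V → W) (vs : List V) : inner (vs.map f) = (inner vs).map f := by
  unfold inner
  rw [← List.map_tail, List.map_dropLast]

theorem isPath_map {f : V → W} (hf : Function.Injective f) {E : List (V × V)} {vs : List V}
    {es : List ℕ} :
    IsPath (E.map (Prod.map f f)) (vs.map f) es ↔ IsPath E vs es := by
  unfold IsPath
  rw [List.nodup_map_iff hf, List.length_map]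
  refine and_congr_right fun _ => and_congr_right fun _ => ?_
  have hinj : Function.Injective (Prod.map f f) := hf.prodMap hf
  constructor
  · intro h i u v hu hv
    obtain ⟨e, he, h1⟩ := h i (f u) (f v) (by rw [List.getElem?_map, hu]; rfl)
      (by rw [List.getElem?_map, hv]; rfl)
    refine ⟨e, he, ?_⟩
    rw [List.getElem?_map] at h1
    simp only [Option.map_eq_some_iff] at h1
    rcases h1 with ⟨a, h2, h3⟩ | ⟨a, h2, h3⟩
    · left
      rw [h2]
      exact congrArg some (hinj h3)
    · right
      rw [h2]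
      exact congrArg some (hinj (h3.trans (Prod.map_apply f f v u).symm))
  · intro h i u' v' hu hv
    rw [List.getElem?_map, Option.map_eq_some_iff] at hu hv
    obtain ⟨u, hu, rfl⟩ := hu
    obtain ⟨v, hv, rfl⟩ := hv
    obtain ⟨e, he, h1⟩ := h i u v hu hv
    refine ⟨e, he, ?_⟩
    rw [List.getElem?_map]
    rcases h1 with h1 | h1 <;> rw [h1]
    · exact Or.inl rfl
    · exact Or.inr rfl

/-- A path of positive length in the renamed graph consists of renamed vertices. -/
theorem exists_map_of_isPath {f : V → W} {E : List (V × V)} {ws : List W} {es : List ℕ}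
    (h : IsPath (E.map (Prod.map f f)) ws es) (hlen : 0 < es.length) :
    ∃ vs : List V, ws = vs.map f := by
  have hrange : ∀ w ∈ ws, ∃ v, f v = w := by
    intro w hw
    obtain ⟨i, hi⟩ := List.mem_iff_getElem?.1 hw
    have hlt := (List.getElem?_eq_some_iff.1 hi).1
    have key : ∀ {a b : W}, Adj (E.map (Prod.map f f)) a b → (∃ v, f v = a) ∧ ∃ v, f v = b := by
      intro a b hab
      rcases hab with h1 | h1
      · obtain ⟨e, -, he⟩ := List.mem_map.1 h1
        exact ⟨⟨e.1, congrArg Prod.fst he⟩, ⟨e.2, congrArg Prod.snd he⟩⟩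
      · obtain ⟨e, -, he⟩ := List.mem_map.1 h1
        exact ⟨⟨e.2, congrArg Prod.snd he⟩, ⟨e.1, congrArg Prod.fst he⟩⟩
    have h2 := h.2.1
    by_cases h0 : i = 0
    · subst h0
      have h3 : 1 < ws.length := by omega
      exact (key (h.adj hi (List.getElem?_eq_getElem h3))).1
    · have h3 : i - 1 < ws.length := by omega
      have h4 : ws[i - 1 + 1]? = some w := by
        rw [Nat.sub_add_cancel (by omega)]; exact hi
      exact (key (h.adj (List.getElem?_eq_getElem h3) h4)).2
  clear h hlen
  induction ws with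
  | nil => exact ⟨[], rfl⟩
  | cons w ws ih =>
    obtain ⟨v, hv⟩ := hrange w (by simp)
    obtain ⟨vs, hvs⟩ := ih (fun w hw => hrange w (by simp [hw]))
    exact ⟨v :: vs, by rw [List.map_cons, hv, hvs]⟩

theorem isXYPath_map {f : V → W} (hf : Function.Injective f) {E : List (V × V)} {X Y : List V}
    {vs : List V} {es : List ℕ} :
    IsXYPath (E.map (Prod.map f f)) (X.map f) (Y.map f) (vs.map f, es) ↔
      IsXYPath E X Y (vs, es) := by
  constructor
  · rintro ⟨h1, ⟨x, hx, hx'⟩, ⟨y, hy, hy'⟩, h4⟩
    refine ⟨(isPath_map hf).1 h1, ?_, ?_, ?_⟩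
    · obtain ⟨x0, hx0, rfl⟩ := List.mem_map.1 hx
      rw [List.head?_map, Option.map_eq_some_iff] at hx'
      obtain ⟨a, ha, ha'⟩ := hx'
      exact ⟨x0, hx0, by rw [ha, hf ha']⟩
    · obtain ⟨y0, hy0, rfl⟩ := List.mem_map.1 hy
      rw [List.getLast?_map, Option.map_eq_some_iff] at hy'
      obtain ⟨a, ha, ha'⟩ := hy'
      exact ⟨y0, hy0, by rw [ha, hf ha']⟩
    · intro v hv
      have h5 := h4 (f v) (by
        change f v ∈ inner (vs.map f)
        rw [inner_map]; exact List.mem_map_of_mem hv)
      exact ⟨fun h => h5.1 (List.mem_map_of_mem h), fun h => h5.2 (List.mem_map_of_mem h)⟩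
  · rintro ⟨h1, ⟨x, hx, hx'⟩, ⟨y, hy, hy'⟩, h4⟩
    refine ⟨(isPath_map hf).2 h1, ⟨f x, List.mem_map_of_mem hx, ?_⟩,
      ⟨f y, List.mem_map_of_mem hy, ?_⟩, ?_⟩
    · rw [List.head?_map]
      rw [show vs.head? = some x from hx']
      rfl
    · rw [List.getLast?_map]
      rw [show vs.getLast? = some y from hy']
      rfl
    · intro w hw
      change w ∈ inner (vs.map f) at hw
      rw [inner_map] at hw
      obtain ⟨v, hv, rfl⟩ := List.mem_map.1 hw
      have h5 := h4 v hv
      refine ⟨fun h => h5.1 ?_, fun h => h5.2 ?_⟩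
      · obtain ⟨a, ha, hav⟩ := List.mem_map.1 h
        rw [← hf hav]; exact ha
      · obtain ⟨a, ha, hav⟩ := List.mem_map.1 h
        rw [← hf hav]; exact ha

theorem disjoint_map {f : V → W} (hf : Function.Injective f) {l l' : List V} :
    (l.map f).Disjoint (l'.map f) ↔ l.Disjoint l' := by
  constructor
  · intro h v h1 h2
    exact h (List.mem_map_of_mem h1) (List.mem_map_of_mem h2)
  · intro h w h1 h2
    obtain ⟨a, ha, rfl⟩ := List.mem_map.1 h1
    obtain ⟨b, hb, hab⟩ := List.mem_map.1 h2
    rw [hf hab] at hb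
    exact h ha hb

/-- Odd paths do not depend on the names of the vertices. -/
theorem hasOddPaths_map {f : V → W} (hf : Function.Injective f) {E : List (V × V)} {k : ℕ}
    {X Y : List V} :
    HasOddPaths (E.map (Prod.map f f)) k (X.map f) (Y.map f) ↔ HasOddPaths E k X Y := by
  constructor
  · rintro ⟨P, hlen, hP, hpair⟩
    have h1 : ∀ P : List (List W × List ℕ), (∀ p ∈ P,
        IsXYPath (E.map (Prod.map f f)) (X.map f) (Y.map f) p ∧ Odd p.2.length) →
        ∃ Q : List (List V × List ℕ), P = Q.map (Prod.map (List.map f) id) := by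
      intro P
      induction P with
      | nil => intro _; exact ⟨[], rfl⟩
      | cons p P ih =>
        intro h
        obtain ⟨Q, hQ⟩ := ih (fun q hq => h q (by simp [hq]))
        obtain ⟨vs, hvs⟩ := exists_map_of_isPath (h p (by simp)).1.isPath (h p (by simp)).2.pos
        refine ⟨(vs, p.2) :: Q, ?_⟩
        rw [List.map_cons, ← hQ]
        simp only [Prod.map_apply, id_eq, ← hvs]
    obtain ⟨Q, rfl⟩ := h1 P hP
    refine ⟨Q, by simpa using hlen, ?_, ?_⟩
    · intro p hp
      have := hP _ (List.mem_map_of_mem hp)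
      exact ⟨(isXYPath_map hf).1 this.1, this.2⟩
    · rw [List.pairwise_map] at hpair
      refine hpair.imp ?_
      intro p q h
      refine ⟨h.1, ?_⟩
      have h2 := h.2
      simp only [Prod.map_fst, inner_map] at h2
      exact (disjoint_map hf).1 h2
  · rintro ⟨P, hlen, hP, hpair⟩
    refine ⟨P.map (Prod.map (List.map f) id), by simpa using hlen, ?_, ?_⟩
    · intro p hp
      obtain ⟨q, hq, rfl⟩ := List.mem_map.1 hp
      exact ⟨(isXYPath_map hf).2 (hP q hq).1, (hP q hq).2⟩
    · rw [List.pairwise_map]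
      refine hpair.imp ?_
      intro p q h
      refine ⟨h.1, ?_⟩
      simp only [Prod.map_fst, inner_map]
      exact (disjoint_map hf).2 h.2

end Pool.Agent.TH654.Odd
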